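import Mathlib
import Pool.Agent.Helper405.AreaA
import Pool.Agent.Helper859.SP.W2

set_option autoImplicit false

open Complex Metric Set Filter Topology

namespace Pool.Agent.TH642.DB

open Pool.Agent.Helper405.Area

/-- Taylor coefficient at the origin -/
noncomputable def cf (n : ℕ) (f : ℂ → ℂ) : ℂ := iteratedDeriv n f 0 / ((n.factorial : ℕ) : ℂ)

theorem h0m : (0:ℂ) ∈ ball (0:ℂ) 1 := mem_ball_self one_pos
theorem hnb : ball (0:ℂ) 1 ∈ 𝓝 (0:ℂ) := isOpen_ball.mem_nhds h0m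

theorem cdAt {F : ℂ → ℂ} (hF : DifferentiableOn ℂ F (ball (0:ℂ) 1)) (n : ℕ) : ContDiffAt ℂ n F 0 :=
  (hF.contDiffOn isOpen_ball).contDiffAt hnb

theorem cf_mul {F G : ℂ → ℂ} (hF : DifferentiableOn ℂ F (ball (0:ℂ) 1)) (hG : DifferentiableOn ℂ G (ball (0:ℂ) 1))
    (n : ℕ) : cf n (fun z => F z * G z) = ∑ i ∈ Finset.range (n + 1), cf i F * cf (n - i) G := by
  unfold cf
  rw [iteratedDeriv_fun_mul (cdAt hF n) (cdAt hG n), Finset.sum_div]
  refine Finset.sum_congr rfl fun i hi => ?_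
  have hin : i ≤ n := Nat.lt_succ_iff.mp (Finset.mem_range.mp hi)
  have h1 : ((n.choose i : ℕ) : ℂ) * ((i.factorial : ℕ) : ℂ) * (((n - i).factorial : ℕ) : ℂ) = ((n.factorial : ℕ) : ℂ) := by
    exact_mod_cast Nat.choose_mul_factorial_mul_factorial hin
  have h2 : ((i.factorial : ℕ) : ℂ) ≠ 0 := by exact_mod_cast i.factorial_ne_zero
  have h3 : (((n - i).factorial : ℕ) : ℂ) ≠ 0 := by exact_mod_cast (n - i).factorial_ne_zero
  have h4 : ((n.factorial : ℕ) : ℂ) ≠ 0 := by exact_mod_cast n.factorial_ne_zero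
  rw [div_mul_div_comm, div_eq_div_iff h4 (mul_ne_zero h2 h3), ← h1]
  ring

theorem cf_add {F G : ℂ → ℂ} (hF : DifferentiableOn ℂ F (ball (0:ℂ) 1)) (hG : DifferentiableOn ℂ G (ball (0:ℂ) 1))
    (n : ℕ) : cf n (fun z => F z + G z) = cf n F + cf n G := by
  unfold cf
  rw [iteratedDeriv_fun_add (cdAt hF n) (cdAt hG n), add_div]

theorem cf_const_mul (c : ℂ) (F : ℂ → ℂ) (n : ℕ) : cf n (fun z => c * F z) = c * cf n F := by
  unfold cf
  rw [iteratedDeriv_const_mul_field, mul_div_assoc]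

theorem cf_id (n : ℕ) : cf n (fun z : ℂ => z) = if n = 1 then 1 else 0 := by
  unfold cf
  rw [iteratedDeriv_fun_id_zero]
  split_ifs with h
  · subst h; simp
  · simp

theorem cf_zero (F : ℂ → ℂ) : cf 0 F = F 0 := by simp [cf]

theorem cf_congr {F G : ℂ → ℂ} (h : ∀ z ∈ ball (0:ℂ) 1, F z = G z) (n : ℕ) : cf n F = cf n G := by
  unfold cf
  have : F =ᶠ[𝓝 (0:ℂ)] G := by
    filter_upwards [hnb] with z hz using h z hz
  rw [this.iteratedDeriv_eq n]

theorem cf_hasSum {G : ℂ → ℂ} (hG : DifferentiableOn ℂ G (ball (0:ℂ) 1)) {z : ℂ} (hz : z ∈ ball (0:ℂ) 1) :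
    HasSum (fun j => cf j G * z ^ j) (G z) := by
  have hd : DifferentiableOn ℂ G (ball (0:ℂ) ((1 : NNReal) : ℝ)) := by simpa using hG
  have hz' : z ∈ ball (0:ℂ) ((1 : NNReal) : ℝ) := by simpa using hz
  have h1 := Complex.hasSum_taylorSeries_on_ball hd hz'
  have e : (fun j => cf j G * z ^ j) = fun n : ℕ => ((n.factorial : ℂ))⁻¹ • (z - 0) ^ n • iteratedDeriv n G 0 := by
    funext j
    simp only [cf, smul_eq_mul, sub_zero]
    ring
  rw [e]
  exact h1

theorem hsqm : ∀ z ∈ ball (0:ℂ) 1, z ^ 2 ∈ ball (0:ℂ) 1 := by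
  intro z hz
  rw [mem_ball_zero_iff] at hz ⊢
  rw [norm_pow]
  nlinarith [norm_nonneg z]

/-- doubled coefficients -/
noncomputable def dc (G : ℂ → ℂ) (j : ℕ) : ℂ := if Even j then cf (j / 2) G else 0

theorem dc_even (G : ℂ → ℂ) (k : ℕ) : dc G (2 * k) = cf k G := by
  simp [dc]

theorem dc_odd (G : ℂ → ℂ) (k : ℕ) : dc G (2 * k + 1) = 0 := by
  have : ¬ Even (2 * k + 1) := by simp
  simp [dc, this]

theorem dc_hasSum {G : ℂ → ℂ} (hG : DifferentiableOn ℂ G (ball (0:ℂ) 1)) :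
    ∀ z ∈ ball (0:ℂ) 1, HasSum (fun j => dc G j * z ^ j) (G (z ^ 2)) := by
  intro z hz
  have h1 := cf_hasSum hG (hsqm z hz)
  have hinj : Function.Injective (fun k : ℕ => 2 * k) := fun a b h => by
    have : 2 * a = 2 * b := h
    omega
  rw [← hinj.hasSum_iff]
  · have e : ((fun j => dc G j * z ^ j) ∘ fun k : ℕ => 2 * k) = fun j => cf j G * (z ^ 2) ^ j := by
      funext k
      simp only [Function.comp, dc_even, pow_mul]
    rw [e]
    exact h1
  · intro j hj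
    have hne : ¬ Even j := by
      rintro ⟨k, hk⟩
      apply hj
      exact ⟨k, by simp only; omega⟩
    simp [dc, hne]

theorem area_summable {P : ℂ → ℂ} {a : ℕ → ℂ} (hsum : ∀ z ∈ ball (0:ℂ) 1, HasSum (fun j => a j * z ^ j) (P z)) (m : ℕ)
    {r : ℝ} (hr0 : 0 < r) (hr1 : r < 1) : Summable fun j : ℕ => ((j : ℝ) - m) * ‖a j‖ ^ 2 * r ^ (2 * j) := by
  have h1 := summable_of_hasSum hsum hr0.le hr1
  have h2 := summable_of_hasSum (hasSum_Q hsum m) hr0.le hr1
  have h3 : ∀ᶠ j in (cofinite : Filter ℕ), ‖a j‖ * r ^ j ≤ 1 := by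
    have := h1.tendsto_cofinite_zero
    exact this.eventually (ge_mem_nhds one_pos)
  refine Summable.of_norm_bounded_eventually (g := fun j => ‖((j : ℂ) - m) * a j‖ * r ^ j) h2 ?_
  filter_upwards [h3] with j hj
  have h4 : ‖(j : ℂ) - m‖ = |(j : ℝ) - m| := by
    rw [← Real.norm_eq_abs, ← Complex.norm_real]
    push_cast
    rfl
  have h6 : ‖((j : ℝ) - m) * ‖a j‖ ^ 2 * r ^ (2 * j)‖ =
      |(j : ℝ) - m| * ‖a j‖ ^ 2 * r ^ (2 * j) := by
    rw [Real.norm_eq_abs, abs_mul, abs_mul, abs_of_nonneg (by positivity : 0 ≤ ‖a j‖ ^ 2),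
      abs_of_nonneg (by positivity : 0 ≤ r ^ (2 * j))]
  have h7 : ‖((j : ℂ) - m) * a j‖ = |(j : ℝ) - m| * ‖a j‖ := by
    rw [norm_mul, h4]
  rw [h6, h7]
  have h5 : 0 ≤ |(j : ℝ) - m| * ‖a j‖ * r ^ j := by positivity
  calc |(j : ℝ) - m| * ‖a j‖ ^ 2 * r ^ (2 * j)
      = (|(j : ℝ) - m| * ‖a j‖ * r ^ j) * (‖a j‖ * r ^ j) := by ring
    _ ≤ (|(j : ℝ) - m| * ‖a j‖ * r ^ j) * 1 := by gcongr
    _ = _ := by ring

theorem sum_double (f : ℕ → ℝ) (hf : ∀ k, f (2 * k + 1) = 0) (N : ℕ) :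
    ∑ j ∈ Finset.range (2 * N), f j = ∑ k ∈ Finset.range N, f (2 * k) := by
  induction N with
  | zero => simp
  | succ n ih =>
    rw [show 2 * (n + 1) = 2 * n + 1 + 1 by ring, Finset.sum_range_succ, Finset.sum_range_succ, ih,
      Finset.sum_range_succ, hf, add_zero]

theorem area_fin {h : ℂ → ℂ} (hd : DifferentiableOn ℂ h Dp) (hi : InjOn h Dp)
    (hp : Tendsto h (𝓝[≠] 0) (Bornology.cobounded ℂ)) {V : ℂ → ℂ} (hV : Differentiable ℂ V)
    {G : ℂ → ℂ} (hG : DifferentiableOn ℂ G (ball (0:ℂ) 1)) {m : ℕ} (hF : ∀ z ∈ Dp, V (h z) * z ^ m = G (z ^ 2))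
    (N : ℕ) (hN : m ≤ 2 * N) :
    ∑ k ∈ Finset.range N, (2 * (k : ℝ) - m) * ‖cf k G‖ ^ 2 ≤ 0 := by
  have hP : DifferentiableOn ℂ (fun z => G (z ^ 2)) (ball 0 1) := hG.comp (by fun_prop) hsqm
  have hsum := dc_hasSum hG
  have hpart : ∀ r : ℝ, 0 < r → r < 1 →
      ∑ j ∈ Finset.range (2 * N), ((j : ℝ) - m) * ‖dc G j‖ ^ 2 * r ^ (2 * j) ≤ 0 := by
    intro r hr0 hr1
    have h1 := area hd hi hp hV hP hF hsum hr0 hr1
    have h2 := (area_summable hsum m hr0 hr1).hasSum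
    have h3 := sum_le_hasSum (Finset.range (2 * N)) (fun i hi => by
      have h4 : 2 * N ≤ i := by simpa using hi
      have h5 : (m : ℝ) ≤ i := by exact_mod_cast hN.trans h4
      have h6 : (0:ℝ) ≤ (i : ℝ) - m := by linarith
      positivity) h2
    linarith
  have hpart1 : ∑ j ∈ Finset.range (2 * N), ((j : ℝ) - m) * ‖dc G j‖ ^ 2 ≤ 0 := by
    have h1 : Tendsto (fun r : ℝ => ∑ j ∈ Finset.range (2 * N), ((j : ℝ) - m) * ‖dc G j‖ ^ 2 * r ^ (2 * j))
        (𝓝[<] 1) (𝓝 (∑ j ∈ Finset.range (2 * N), ((j : ℝ) - m) * ‖dc G j‖ ^ 2 * 1 ^ (2 * j))) := by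
      refine Tendsto.mono_left ?_ nhdsWithin_le_nhds
      exact (Continuous.tendsto (by fun_prop) 1)
    have h2 : ∀ᶠ r : ℝ in 𝓝[<] 1, ∑ j ∈ Finset.range (2 * N), ((j : ℝ) - m) * ‖dc G j‖ ^ 2 * r ^ (2 * j) ≤ 0 := by
      have h3 : Ioo (0:ℝ) 1 ∈ 𝓝[<] (1:ℝ) := Ioo_mem_nhdsLT one_pos
      filter_upwards [h3] with r hr
      exact hpart r hr.1 hr.2
    have h3 := le_of_tendsto h1 h2
    simpa using h3
  rw [sum_double _ (fun k => by rw [dc_odd]; simp)] at hpart1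
  refine le_trans (le_of_eq ?_) hpart1
  refine Finset.sum_congr rfl fun k _ => ?_
  rw [dc_even]
  push_cast
  ring

theorem sqrt_transform {f : ℂ → ℂ} (hfd : DifferentiableOn ℂ f (ball (0:ℂ) 1)) (hi : InjOn f (ball (0:ℂ) 1))
    (h0 : f 0 = 0) (h1 : deriv f 0 = 1) :
    ∃ g q : ℂ → ℂ, DifferentiableOn ℂ g (ball (0:ℂ) 1) ∧ DifferentiableOn ℂ q (ball (0:ℂ) 1) ∧ g 0 = 1 ∧
      (∀ z, f z = z * q z) ∧ (∀ z ∈ ball (0:ℂ) 1, g z * g z * q z = 1) ∧
      DifferentiableOn ℂ (fun z => g (z ^ 2) / z) Dp ∧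
      InjOn (fun z => g (z ^ 2) / z) Dp ∧
      Tendsto (fun z => g (z ^ 2) / z) (𝓝[≠] 0) (Bornology.cobounded ℂ) := by
  set q : ℂ → ℂ := dslope f 0 with hqdef
  have hq : DifferentiableOn ℂ q (ball (0:ℂ) 1) := (Complex.differentiableOn_dslope hnb).mpr hfd
  have hgq : ∀ z, f z = z * q z := by
    intro z
    have := sub_smul_dslope f 0 z
    simp only [sub_zero, h0, smul_eq_mul] at this
    exact this.symm
  have hq1 : q 0 = 1 := by
    change dslope f 0 0 = 1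
    rw [dslope_same, h1]
  have hqne : ∀ z ∈ ball (0:ℂ) 1, q z ≠ 0 := by
    intro z hz hqz
    by_cases hz0 : z = 0
    · rw [hz0, hq1] at hqz; exact one_ne_zero hqz
    · have : f z = f 0 := by rw [hgq z, hqz, mul_zero, h0]
      exact hz0 (hi hz h0m this)
  obtain ⟨s, hs, hs0, hsq⟩ := Pool.Agent.Helper859.SP.W2.sqrt_aux q hq hqne hq1
  have hsne : ∀ z ∈ ball (0:ℂ) 1, s z ≠ 0 := by
    intro z hz h
    apply hqne z hz
    rw [← hsq z hz, h]; ring
  have hG2 : ∀ z ∈ ball (0:ℂ) 1, (z * s (z ^ 2)) ^ 2 = f (z ^ 2) := by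
    intro z hz
    rw [hgq (z ^ 2), ← hsq _ (hsqm z hz)]
    ring
  have hGi : InjOn (fun z => z * s (z ^ 2)) (ball (0:ℂ) 1) := by
    intro a ha b hb' hab
    have h2 : a ^ 2 = b ^ 2 := by
      apply hi (hsqm a ha) (hsqm b hb')
      have hab' : a * s (a ^ 2) = b * s (b ^ 2) := hab
      rw [← hG2 a ha, ← hG2 b hb', hab']
    rcases sq_eq_sq_iff_eq_or_eq_neg.mp h2 with h3 | h3
    · exact h3
    · have h4 : a * s (a ^ 2) = b * s (b ^ 2) := hab
      rw [h2, h3] at h4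
      have h5 : b * s (b ^ 2) = 0 := by linear_combination (-1/2 : ℂ) * h4
      rcases mul_eq_zero.mp h5 with h6 | h6
      · rw [h3, h6]; simp
      · exact absurd h6 (hsne _ (hsqm b hb'))
  set p : ℂ → ℂ := fun w => (s w)⁻¹ with hp
  have hpd : DifferentiableOn ℂ p (ball (0:ℂ) 1) := hs.inv hsne
  have hp0 : p 0 = 1 := by simp [hp, hs0]
  have hYd : DifferentiableOn ℂ (fun z => p (z ^ 2)) (ball (0:ℂ) 1) := hpd.comp (by fun_prop) hsqm
  refine ⟨p, q, hpd, hq, hp0, hgq, ?_, ?_, ?_, ?_⟩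
  · intro z hz
    have e := hsne z hz
    rw [← hsq z hz]
    simp only [hp]
    field_simp
  · intro z hz
    have h2 : DifferentiableAt ℂ (fun z => p (z ^ 2)) z := (hYd z hz.1).differentiableAt (isOpen_ball.mem_nhds hz.1)
    exact (h2.div differentiableAt_id hz.2).differentiableWithinAt
  · rintro a ⟨ha, ha0⟩ b ⟨hb, hb0⟩ hab
    have ha0' : a ≠ 0 := ha0
    have hb0' : b ≠ 0 := hb0
    have hab' : (s (a ^ 2))⁻¹ / a = (s (b ^ 2))⁻¹ / b := hab
    have e1 := hsne _ (hsqm a ha)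
    have e2 := hsne _ (hsqm b hb)
    apply hGi ha hb
    change a * s (a ^ 2) = b * s (b ^ 2)
    rw [inv_div_left, inv_div_left] at hab'
    exact inv_injective hab'
  · have h1 : Tendsto (fun z => p (z ^ 2)) (𝓝[≠] 0) (𝓝 1) := by
      have := (hYd.differentiableAt hnb).continuousAt.tendsto
      rw [zero_pow two_ne_zero, hp0] at this
      exact this.mono_left nhdsWithin_le_nhds
    have h2 : Tendsto (fun z : ℂ => z⁻¹) (𝓝[≠] 0) (Bornology.cobounded ℂ) :=
      tendsto_inv₀_nhdsNE_zero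
    have h3 : Tendsto (fun z : ℂ => ‖p (z ^ 2)‖ * ‖z⁻¹‖) (𝓝[≠] 0) atTop := by
      refine Tendsto.pos_mul_atTop one_pos ?_ (tendsto_norm_cobounded_atTop.comp h2)
      simpa using h1.norm
    rw [← tendsto_norm_atTop_iff_cobounded]
    refine h3.congr (fun z => ?_)
    rw [norm_div, div_eq_mul_inv, ← norm_inv z]

/-- There is no univalent function `z + (39/20) z² + 3 z³ + ⋯` on the disc. -/
theorem no_univalent {f : ℂ → ℂ} (hfd : DifferentiableOn ℂ f (ball (0:ℂ) 1)) (hi : InjOn f (ball (0:ℂ) 1))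
    (h0 : f 0 = 0) (c1 : cf 1 f = 1) (c2 : cf 2 f = 39 / 20) (c3 : cf 3 f = 3) : False := by
  have h1 : deriv f 0 = 1 := by simpa [cf, iteratedDeriv_one] using c1
  obtain ⟨g, q, hg, hq, hg0, hfq, hgq, hhd, hhi, hhp⟩ := sqrt_transform hfd hi h0 h1
  have hfq' : f = fun z => (fun z : ℂ => z) z * q z := funext hfq
  have hid : DifferentiableOn ℂ (fun z : ℂ => z) (ball (0:ℂ) 1) := by fun_prop
  have q0 : cf 0 q = 1 := by
    rw [hfq', cf_mul hid hq] at c1
    simpa [Finset.sum_range_succ, cf_id] using c1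
  have q1 : cf 1 q = 39 / 20 := by
    rw [hfq', cf_mul hid hq] at c2
    simpa [Finset.sum_range_succ, cf_id] using c2
  have q2 : cf 2 q = 3 := by
    rw [hfq', cf_mul hid hq] at c3
    simpa [Finset.sum_range_succ, cf_id] using c3
  have hgg : DifferentiableOn ℂ (fun z => g z * g z) (ball (0:ℂ) 1) := hg.mul hg
  have hggg : DifferentiableOn ℂ (fun z => (fun z => g z * g z) z * g z) (ball (0:ℂ) 1) := hgg.mul hg
  have g0 : cf 0 g = 1 := by rw [cf_zero, hg0]
  have s0 : cf 0 (fun z => g z * g z) = 1 := by rw [cf_zero, hg0]; ring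
  have s1 : cf 1 (fun z => g z * g z) = 2 * cf 1 g := by
    rw [cf_mul hg hg]
    simp only [Finset.sum_range_succ, Finset.sum_range_zero, Nat.sub_zero, Nat.sub_self, g0]
    ring
  have s2 : cf 2 (fun z => g z * g z) = 2 * cf 2 g + cf 1 g ^ 2 := by
    rw [cf_mul hg hg]
    simp only [Finset.sum_range_succ, Finset.sum_range_zero, Nat.sub_zero, Nat.sub_self, g0,
      show 2 - 1 = 1 from rfl]
    ring
  have s3 : cf 3 (fun z => g z * g z) = 2 * cf 3 g + 2 * cf 1 g * cf 2 g := by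
    rw [cf_mul hg hg]
    simp only [Finset.sum_range_succ, Finset.sum_range_zero, Nat.sub_zero, Nat.sub_self, g0,
      show 3 - 1 = 2 from rfl, show 3 - 2 = 1 from rfl]
    ring
  have hone (n : ℕ) : cf n (fun z => (fun z => g z * g z) z * q z) = if n = 0 then 1 else 0 := by
    rw [cf_congr (G := fun _ => (1:ℂ)) (fun z hz => hgq z hz)]
    unfold cf
    rw [iteratedDeriv_const]
    split_ifs with h
    · subst h; simp
    · simp
  have g1 : cf 1 g = -39 / 40 := by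
    have e := hone 1
    rw [cf_mul hgg hq] at e
    simp only [Finset.sum_range_succ, Finset.sum_range_zero, Nat.sub_zero, Nat.sub_self, s0, s1, q0, q1,
      one_ne_zero, if_false] at e
    linear_combination (1/2 : ℂ) * e
  have g2 : cf 2 g = -237 / 3200 := by
    have e := hone 2
    rw [cf_mul hgg hq] at e
    simp only [Finset.sum_range_succ, Finset.sum_range_zero, Nat.sub_zero, Nat.sub_self, s0, s1, s2, q0, q1, q2,
      show 2 - 1 = 1 from rfl, two_ne_zero, if_false, g1] at e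
    linear_combination (1/2 : ℂ) * e
  -- first inequality
  have A1 := area_fin hhd hhi hhp (V := fun w => w) differentiable_id (G := g) hg (m := 1)
    (by
      intro z hz
      have hz0 : z ≠ 0 := hz.2
      rw [pow_one]
      field_simp) 4 (by norm_num)
  -- second inequality
  set y : ℂ := 9 - 3 * (-39 / 40) with hy
  set G3 : ℂ → ℂ := fun z => (fun z => (fun z => g z * g z) z * g z) z + (fun z => y * (fun z => (fun z => z) z * g z) z) z with hG3
  have hzg : DifferentiableOn ℂ (fun z => (fun z : ℂ => z) z * g z) (ball (0:ℂ) 1) := hid.mul hg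
  have hyzg : DifferentiableOn ℂ (fun z => y * (fun z => (fun z : ℂ => z) z * g z) z) (ball (0:ℂ) 1) :=
    hzg.const_mul y
  have hG3d : DifferentiableOn ℂ G3 (ball (0:ℂ) 1) := hggg.add hyzg
  have A3 := area_fin hhd hhi hhp (V := fun w => w ^ 3 + y * w) (by fun_prop) (G := G3) hG3d (m := 3)
    (by
      intro z hz
      have hz0 : z ≠ 0 := hz.2
      simp only [hG3]
      field_simp) 4 (by norm_num)
  have G30 : cf 0 G3 = 1 := by
    rw [cf_zero]; simp [hG3, hg0]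
  have G3c (n : ℕ) : cf n G3 = cf n (fun z => (fun z => g z * g z) z * g z) + y * cf n (fun z => (fun z : ℂ => z) z * g z) := by
    rw [hG3, cf_add hggg hyzg, cf_const_mul]
  have G31 : cf 1 G3 = 9 := by
    rw [G3c, cf_mul hgg hg, cf_mul hid hg]
    simp only [Finset.sum_range_succ, Finset.sum_range_zero, Nat.sub_zero, Nat.sub_self, s0, s1, g0, g1, cf_id,
      hy]
    norm_num
  have G32 : cf 2 G3 = 3 * (-237 / 3200) + 9 * (-39 / 40) := by
    rw [G3c, cf_mul hgg hg, cf_mul hid hg]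
    simp only [Finset.sum_range_succ, Finset.sum_range_zero, Nat.sub_zero, Nat.sub_self, s0, s1, s2, g0, g1, g2, cf_id,
      show 2 - 1 = 1 from rfl, hy]
    norm_num
  have G33 : cf 3 G3 = 3 * cf 3 g + (3 * (-39 / 40) * (-237 / 3200) + (-39 / 40) ^ 3 + 9 * (-237 / 3200)) := by
    rw [G3c, cf_mul hgg hg, cf_mul hid hg]
    simp only [Finset.sum_range_succ, Finset.sum_range_zero, Nat.sub_zero, Nat.sub_self, s0, s1, s2, s3, g0, g1, g2, cf_id,
      show 3 - 1 = 2 from rfl, show 3 - 2 = 1 from rfl, hy]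
    norm_num
    ring
  simp only [Finset.sum_range_succ, Finset.sum_range_zero, g0, g1, g2] at A1
  simp only [Finset.sum_range_succ, Finset.sum_range_zero, G30, G31, G32, G33] at A3
  set w := cf 3 g with hw
  rw [Complex.sq_norm, Complex.sq_norm, Complex.sq_norm, Complex.sq_norm] at A1 A3
  simp only [Complex.normSq_apply] at A1 A3
  norm_num at A1 A3
  nlinarith [A1, A3, sq_nonneg w.re, sq_nonneg w.im]

end Pool.Agent.TH642.DB
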