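import Mathlib

set_option autoImplicit false

/-! Local contraction property of the triple `(b, (39/20) b, 3 b)`, `b = exp (-L)`, `2 L = M = 10 ^ 8`. -/

namespace Pool.Agent.TH642.DB

/-- `y * ph M y = exp (M y) - 1` -/
noncomputable def ph (M y : ℝ) : ℝ := if y = 0 then M else (Real.exp (M * y) - 1) / y

theorem mul_ph (M y : ℝ) : y * ph M y = Real.exp (M * y) - 1 := by
  unfold ph
  split_ifs with h
  · simp [h]
  · field_simp

theorem ph_ge {M y : ℝ} (hM : 24 ≤ M) (hy : 0 ≤ y) : M * (1 + y + y ^ 2 + y ^ 3) ≤ ph M y := by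
  rcases eq_or_lt_of_le hy with h | h
  · subst h
    simp [ph]
  · have h1 : ph M y = (Real.exp (M * y) - 1) / y := by
      unfold ph
      rw [if_neg h.ne']
    rw [h1, le_div_iff₀ h]
    have h2 := Real.sum_le_exp_of_nonneg (mul_nonneg (by linarith : (0:ℝ) ≤ M) h.le) 5
    simp only [Finset.sum_range_succ, Finset.sum_range_zero, Nat.factorial] at h2
    norm_num at h2
    have hM2 : 24 * M ≤ M ^ 2 := by nlinarith
    have hM3 : 24 * M ≤ M ^ 3 := by nlinarith [sq_nonneg M]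
    have hM4 : 24 * M ≤ M ^ 4 := by nlinarith [sq_nonneg M, sq_nonneg (M ^ 2)]
    have e2 : M * y ^ 2 ≤ (M * y) ^ 2 / 2 := by
      have : 24 * M * y ^ 2 ≤ M ^ 2 * y ^ 2 := mul_le_mul_of_nonneg_right hM2 (by positivity)
      nlinarith [mul_nonneg (by linarith : (0:ℝ) ≤ M) (sq_nonneg y)]
    have e3 : M * y ^ 3 ≤ (M * y) ^ 3 / 6 := by
      have : 24 * M * y ^ 3 ≤ M ^ 3 * y ^ 3 := mul_le_mul_of_nonneg_right hM3 (by positivity)
      nlinarith [mul_nonneg (by linarith : (0:ℝ) ≤ M) (by positivity : (0:ℝ) ≤ y ^ 3)]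
    have e4 : M * y ^ 4 ≤ (M * y) ^ 4 / 24 := by
      have : 24 * M * y ^ 4 ≤ M ^ 4 * y ^ 4 := mul_le_mul_of_nonneg_right hM4 (by positivity)
      nlinarith [mul_nonneg (by linarith : (0:ℝ) ≤ M) (by positivity : (0:ℝ) ≤ y ^ 4)]
    nlinarith

theorem ph_pos {M : ℝ} (hM : 0 < M) (y : ℝ) : 0 < ph M y := by
  unfold ph
  split_ifs with h
  · exact hM
  · rcases lt_or_gt_of_ne h with h1 | h1
    · apply div_pos_of_neg_of_neg _ h1
      have : Real.exp (M * y) < 1 := Real.exp_lt_one_iff.mpr (mul_neg_of_pos_of_neg hM h1)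
      linarith
    · apply div_pos _ h1
      have : 1 < Real.exp (M * y) := Real.one_lt_exp_iff.mpr (mul_pos hM h1)
      linarith

/-- `ph (-s) = (1 - e) / s` with `e = exp (- M s)` -/
theorem ph_neg_eq (M s : ℝ) : s * ph M (-s) = 1 - Real.exp (-(M * s)) := by
  have := mul_ph M (-s)
  have h2 : M * -s = -(M * s) := by ring
  rw [h2] at this
  linarith

theorem exp_neg_le {u : ℝ} : (1 + u) * Real.exp (-u) ≤ 1 := by
  have h1 : 1 + u ≤ Real.exp u := by linarith [Real.add_one_le_exp u]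
  have h2 := Real.exp_pos (-u)
  calc (1 + u) * Real.exp (-u) ≤ Real.exp u * Real.exp (-u) := by
        exact mul_le_mul_of_nonneg_right h1 h2.le
    _ = 1 := by rw [← Real.exp_add]; simp

theorem exp_neg_le3 {u : ℝ} (hu : 0 ≤ u) : u ^ 3 * Real.exp (-u) ≤ 6 := by
  have h1 := Real.sum_le_exp_of_nonneg hu 4
  simp only [Finset.sum_range_succ, Finset.sum_range_zero, Nat.factorial] at h1
  norm_num at h1
  have h2 := Real.exp_pos (-u)
  have h3 : u ^ 3 / 6 ≤ Real.exp u := by nlinarith [sq_nonneg u]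
  have h4 : u ^ 3 / 6 * Real.exp (-u) ≤ Real.exp u * Real.exp (-u) :=
    mul_le_mul_of_nonneg_right h3 h2.le
  have h5 : Real.exp u * Real.exp (-u) = 1 := by rw [← Real.exp_add]; simp
  nlinarith

/-- for `s ≥ 0`: `ph (-s) ≥ M / (1 + M s)` -/
theorem ph_neg_ge {M s : ℝ} (hs : 0 ≤ s) : M ≤ (1 + M * s) * ph M (-s) := by
  rcases eq_or_lt_of_le hs with h | h
  · subst h
    simp [ph]
  · have h1 := ph_neg_eq M s
    have h2 := exp_neg_le (u := M * s)
    have h3 : s * M ≤ s * ((1 + M * s) * ph M (-s)) := by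
      have : s * ((1 + M * s) * ph M (-s)) = (1 + M * s) * (s * ph M (-s)) := by ring
      rw [this, h1]
      nlinarith
    exact le_of_mul_le_mul_left h3 h

theorem ph_flip (M y : ℝ) : Real.exp (M * y) * ph M (-y) = ph M y := by
  rcases eq_or_ne y 0 with h | h
  · subst h
    simp [ph]
  · have e1 := mul_ph M y
    have e2 := ph_neg_eq M y
    have h3 : Real.exp (M * y) * Real.exp (-(M * y)) = 1 := by rw [← Real.exp_add]; simp
    apply mul_left_cancel₀ h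
    calc y * (Real.exp (M * y) * ph M (-y)) = Real.exp (M * y) * (y * ph M (-y)) := by ring
      _ = Real.exp (M * y) - 1 := by rw [e2]; linear_combination -h3
      _ = y * ph M y := e1.symm

/-- `y + 1 / ph y = 1 / ph (- y)` -/
theorem inv_ph {M : ℝ} (hM : 0 < M) (y : ℝ) : y + 1 / ph M y = 1 / ph M (-y) := by
  have h1 := ph_pos hM y
  have h2 := ph_pos hM (-y)
  have e1 := mul_ph M y
  have e2 := ph_flip M y
  have h4 : (y * ph M y + 1) * ph M (-y) = ph M y := by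
    rw [e1]
    linear_combination e2
  field_simp
  linear_combination h4

/-! The quadratic form. -/

/-- `W s = 3 - (1 - s / 2) (39/20)^2` -/
noncomputable def W (s : ℝ) : ℝ := 1521 / 800 * s - 321 / 400

/-- the polynomial inequality -/
theorem key (s : ℝ) : (1 - s) * (s * (1521 / 400) + (1 + s) * W s ^ 2) ≤ 1 - 27 / 2000 := by
  unfold W
  nlinarith [sq_nonneg (s ^ 2 - 0.42209 * s - 0.1), sq_nonneg (s - 0.58), sq_nonneg s]

/-- reduced form: `N ≥ 0` -/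
def Nonneg (R Q P x : ℝ) : Prop := ∀ g₁ g₂ : ℝ,
  0 ≤ R * g₁ ^ 2 + Q * g₂ ^ 2 - x * (1521 / 400) * g₁ ^ 2 - 2 * (39 / 20) * g₁ * g₂ -
    P * ((3 + (x - 2) / 2 * (1521 / 400)) * g₁ + 39 / 20 * g₂) ^ 2

theorem w_eq (x : ℝ) : 3 + (x - 2) / 2 * (1521 / 400) = W x := by
  unfold W; ring

theorem w_eq' (s : ℝ) : 3 + (-s - 2) / 2 * (1521 / 400) = W s - s * (1521 / 400) := by
  unfold W; ring

/-- case `x ≥ 1` -/
theorem case3 {R Q P x : ℝ} (hx : 1 ≤ x) (hP0 : 0 ≤ P) (hP : P ≤ 3 * x) (hR : 100 * x ^ 3 ≤ R)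
    (hQ : 100 * x ≤ Q) : Nonneg R Q P x := by
  intro g₁ g₂
  rw [w_eq]
  have hW : W x ^ 2 ≤ 4 * x ^ 2 := by
    unfold W; nlinarith
  have h1 : P * (W x * g₁ + 39 / 20 * g₂) ^ 2 ≤ P * (2 * (W x * g₁) ^ 2 + 2 * (39 / 20 * g₂) ^ 2) := by
    apply mul_le_mul_of_nonneg_left _ hP0
    nlinarith [sq_nonneg (W x * g₁ - 39 / 20 * g₂)]
  have h2 : P * (2 * (W x * g₁) ^ 2 + 2 * (39 / 20 * g₂) ^ 2) ≤
      3 * x * (2 * (4 * x ^ 2 * g₁ ^ 2) + 2 * (39 / 20 * g₂) ^ 2) := by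
    have : (W x * g₁) ^ 2 ≤ 4 * x ^ 2 * g₁ ^ 2 := by
      rw [mul_pow]
      exact mul_le_mul_of_nonneg_right hW (sq_nonneg _)
    apply mul_le_mul hP (by linarith) (by positivity) (by positivity)
  have h3 : 100 * x ^ 3 * g₁ ^ 2 ≤ R * g₁ ^ 2 := mul_le_mul_of_nonneg_right hR (sq_nonneg _)
  have h4 : 100 * x * g₂ ^ 2 ≤ Q * g₂ ^ 2 := mul_le_mul_of_nonneg_right hQ (sq_nonneg _)
  have h5 : x * g₁ ^ 2 ≤ x ^ 3 * g₁ ^ 2 := by
    apply mul_le_mul_of_nonneg_right _ (sq_nonneg _)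
    nlinarith [sq_nonneg x]
  have h6 : g₁ ^ 2 ≤ x ^ 3 * g₁ ^ 2 := by
    have : (1:ℝ) ≤ x ^ 3 := one_le_pow₀ hx
    nlinarith [sq_nonneg g₁]
  have h7 : g₂ ^ 2 ≤ x * g₂ ^ 2 := by nlinarith [sq_nonneg g₂]
  nlinarith [sq_nonneg (g₁ - g₂)]

/-- case `0 ≤ x ≤ 1` -/
theorem case1 {R Q P x : ℝ} (hx0 : 0 ≤ x) (hx1 : x ≤ 1) (hP : P ≤ 1 + x + 1 / 10 ^ 8)
    (hR : 1 ≤ (1 - x + 1 / 10 ^ 8) * R) (hQ : 10 ^ 8 ≤ Q) : Nonneg R Q P x := by
  intro g₁ g₂
  rw [w_eq]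
  have hk := key x
  have hW : W x ^ 2 ≤ 5 / 4 := by
    unfold W; nlinarith
  have hW0 : 0 ≤ W x ^ 2 := sq_nonneg _
  set B : ℝ := x * (1521 / 400) + 1001 / 1000 * (1 + x + 1 / 10 ^ 8) * W x ^ 2 + 1 / 1000 with hB
  have hB1 : B ≤ x * (1521 / 400) + (1 + x) * W x ^ 2 + 1 / 200 := by
    rw [hB]; nlinarith
  have hB0 : 0 ≤ B := by rw [hB]; positivity
  have hB2 : B ≤ 7 := by nlinarith
  have hBR : B ≤ R := by
    have h1 : (1 - x + 1 / 10 ^ 8) * B ≤ (1 - x + 1 / 10 ^ 8) * R := by nlinarith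
    have h2 : (0:ℝ) < 1 - x + 1 / 10 ^ 8 := by linarith [show (0:ℝ) < 1 / 10 ^ 8 by norm_num]
    exact le_of_mul_le_mul_left h1 h2
  have h1 : P * (W x * g₁ + 39 / 20 * g₂) ^ 2 ≤ (1 + x + 1 / 10 ^ 8) * (W x * g₁ + 39 / 20 * g₂) ^ 2 :=
    mul_le_mul_of_nonneg_right hP (sq_nonneg _)
  have h2 : (1 + x + 1 / 10 ^ 8) * (W x * g₁ + 39 / 20 * g₂) ^ 2 ≤
      (1 + x + 1 / 10 ^ 8) * (1001 / 1000 * W x ^ 2 * g₁ ^ 2 + 1001 * (1521 / 400) * g₂ ^ 2) := by
    apply mul_le_mul_of_nonneg_left _ (by positivity)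
    nlinarith [sq_nonneg (W x * g₁ - 1000 * (39 / 20) * g₂)]
  have h3 : (1 + x + 1 / 10 ^ 8) * (1001 * (1521 / 400) * g₂ ^ 2) ≤ 3 * (1001 * (1521 / 400) * g₂ ^ 2) := by
    apply mul_le_mul_of_nonneg_right _ (by positivity)
    linarith [show (1:ℝ) / 10 ^ 8 ≤ 1 by norm_num]
  have h4 : B * g₁ ^ 2 ≤ R * g₁ ^ 2 := mul_le_mul_of_nonneg_right hBR (sq_nonneg _)
  have h5 : 10 ^ 8 * g₂ ^ 2 ≤ Q * g₂ ^ 2 := mul_le_mul_of_nonneg_right hQ (sq_nonneg _)
  have h6 : 0 ≤ (g₁ - 1000 * (39 / 20) * g₂) ^ 2 := sq_nonneg _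
  rw [hB] at h4
  nlinarith [sq_nonneg g₂]

/-- case `-1/100 ≤ x ≤ 0` -/
theorem case2a {R Q P s : ℝ} (hs0 : 0 ≤ s) (hs1 : s ≤ 1 / 100) (hP : P ≤ 1 + 1 / 10 ^ 8)
    (hR : 98 / 100 ≤ R) (hQ : 90 ≤ Q) : Nonneg R Q P (-s) := by
  intro g₁ g₂
  rw [w_eq']
  set w : ℝ := W s - s * (1521 / 400) with hw
  have hW : w ^ 2 ≤ 68 / 100 := by
    rw [hw]; unfold W; nlinarith
  have h1 : P * (w * g₁ + 39 / 20 * g₂) ^ 2 ≤ (1 + 1 / 10 ^ 8) * (w * g₁ + 39 / 20 * g₂) ^ 2 :=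
    mul_le_mul_of_nonneg_right hP (sq_nonneg _)
  have h2 : (w * g₁ + 39 / 20 * g₂) ^ 2 ≤ 11 / 10 * w ^ 2 * g₁ ^ 2 + 11 * (1521 / 400) * g₂ ^ 2 := by
    nlinarith [sq_nonneg (w * g₁ - 10 * (39 / 20) * g₂)]
  have h3 : 11 / 10 * w ^ 2 * g₁ ^ 2 ≤ 11 / 10 * (68 / 100) * g₁ ^ 2 := by
    apply mul_le_mul_of_nonneg_right _ (sq_nonneg _)
    linarith
  have h4 : 98 / 100 * g₁ ^ 2 ≤ R * g₁ ^ 2 := mul_le_mul_of_nonneg_right hR (sq_nonneg _)
  have h5 : 90 * g₂ ^ 2 ≤ Q * g₂ ^ 2 := mul_le_mul_of_nonneg_right hQ (sq_nonneg _)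
  have h6 : 0 ≤ (g₁ - 10 * (39 / 20) * g₂) ^ 2 := sq_nonneg _
  have h7 : 0 ≤ s * g₁ ^ 2 := mul_nonneg hs0 (sq_nonneg _)
  nlinarith [sq_nonneg g₂, sq_nonneg g₁]

/-- the basic Cauchy-Schwarz inequality -/
theorem cauchy {a b P Wx p g t : ℝ} (ha : 0 < a) (hb : 0 < b)
    (h : P * (Wx ^ 2 * b + p ^ 2 * a) ≤ a * b) (hP : 0 ≤ P) :
    P * (Wx * g + p * t) ^ 2 ≤ a * g ^ 2 + b * t ^ 2 := by
  have hab : 0 < a * b := mul_pos ha hb
  have h1 : a * b * (Wx * g + p * t) ^ 2 ≤ (Wx ^ 2 * b + p ^ 2 * a) * (a * g ^ 2 + b * t ^ 2) := by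
    nlinarith [sq_nonneg (a * p * g - b * Wx * t)]
  have h2 : P * (a * b * (Wx * g + p * t) ^ 2) ≤ P * ((Wx ^ 2 * b + p ^ 2 * a) * (a * g ^ 2 + b * t ^ 2)) :=
    mul_le_mul_of_nonneg_left h1 hP
  have h3 : P * (Wx ^ 2 * b + p ^ 2 * a) * (a * g ^ 2 + b * t ^ 2) ≤ a * b * (a * g ^ 2 + b * t ^ 2) :=
    mul_le_mul_of_nonneg_right h (by positivity)
  have h4 : a * b * (P * (Wx * g + p * t) ^ 2) ≤ a * b * (a * g ^ 2 + b * t ^ 2) := by nlinarith
  exact le_of_mul_le_mul_left h4 hab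

/-- common part of the cases with `x = - s < 0`, `Q = (1 - e) / s` -/
theorem case2 {R Q P s e c : ℝ} (hs : 0 < s) (he : 0 ≤ e) (hQ : s * Q = 1 - e)
    (hc : 0 < c) (hP0 : 0 ≤ P)
    (hR : c ≤ (1 + s) * (R - 2 * e * s * (1521 / 400)))
    (hc2 : c ≤ 1 - 2 * e)
    (hP : P * ((1 + s) * W s ^ 2 + s * (1521 / 400)) ≤ c) : Nonneg R Q P (-s) := by
  intro g₁ g₂
  rw [w_eq']
  obtain ⟨t, ht⟩ : ∃ t, t = g₂ - s * (39 / 20) * g₁ := ⟨_, rfl⟩
  have hg : g₂ = t + s * (39 / 20) * g₁ := by rw [ht]; ring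
  have e1 : (W s - s * (1521 / 400)) * g₁ + 39 / 20 * g₂ = W s * g₁ + 39 / 20 * t := by
    rw [hg]; ring
  rw [e1]
  have ha : 0 < c / (1 + s) := by positivity
  have hb : 0 < c / s := by positivity
  have h1 := cauchy (a := c / (1 + s)) (b := c / s) (P := P) (Wx := W s) (p := 39 / 20) (g := g₁) (t := t)
    ha hb (by
      have h2 : P * (W s ^ 2 * (c / s) + (39 / 20) ^ 2 * (c / (1 + s))) =
        c / (s * (1 + s)) * (P * ((1 + s) * W s ^ 2 + s * (1521 / 400))) := by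
        field_simp
        ring
      have h3 : c / (1 + s) * (c / s) = c / (s * (1 + s)) * c := by
        field_simp
      rw [h2, h3]
      exact mul_le_mul_of_nonneg_left hP (by positivity)) hP0
  have h2 : c / (1 + s) ≤ R - 2 * e * s * (1521 / 400) := by
    rw [div_le_iff₀ (by positivity)]
    linarith
  have h3 : c / (1 + s) * g₁ ^ 2 ≤ (R - 2 * e * s * (1521 / 400)) * g₁ ^ 2 :=
    mul_le_mul_of_nonneg_right h2 (sq_nonneg _)
  have h4 : c / s * t ^ 2 ≤ (1 - 2 * e) / s * t ^ 2 := by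
    apply mul_le_mul_of_nonneg_right _ (sq_nonneg _)
    exact div_le_div_of_nonneg_right hc2 hs.le
  have h5 : Q * g₂ ^ 2 - 2 * (39 / 20) * g₁ * g₂ + s * (1521 / 400) * g₁ ^ 2 = 1 / s * t ^ 2 - e / s * g₂ ^ 2 := by
    have hQ' : Q = (1 - e) / s := by
      rw [eq_div_iff hs.ne']; linarith
    rw [hQ', ht]
    field_simp
    ring
  have h6 : e / s * g₂ ^ 2 ≤ 2 * (e / s) * t ^ 2 + 2 * e * s * (1521 / 400) * g₁ ^ 2 := by
    have h7 : g₂ ^ 2 ≤ 2 * t ^ 2 + 2 * s ^ 2 * (1521 / 400) * g₁ ^ 2 := by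
      rw [hg]
      nlinarith [sq_nonneg (t - s * (39 / 20) * g₁)]
    have h8 : e / s * g₂ ^ 2 ≤ e / s * (2 * t ^ 2 + 2 * s ^ 2 * (1521 / 400) * g₁ ^ 2) :=
      mul_le_mul_of_nonneg_left h7 (by positivity)
    have h9 : e / s * (2 * t ^ 2 + 2 * s ^ 2 * (1521 / 400) * g₁ ^ 2) =
        2 * (e / s) * t ^ 2 + 2 * e * s * (1521 / 400) * g₁ ^ 2 := by
      field_simp
    linarith
  have h10 : (1 - 2 * e) / s * t ^ 2 = 1 / s * t ^ 2 - 2 * (e / s) * t ^ 2 := by ring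
  nlinarith

/-- the constant `M = 10 ^ 8` -/
noncomputable def M : ℝ := 10 ^ 8

theorem M_pos : 0 < M := by unfold M; norm_num

theorem M_ge : 24 ≤ M := by unfold M; norm_num

theorem e_le {s : ℝ} (hs : 1 / 100 ≤ s) : Real.exp (-(M * s)) ≤ 1 / 10 ^ 6 := by
  have h1 := exp_neg_le (u := M * s)
  have h2 : (10:ℝ) ^ 6 ≤ 1 + M * s := by unfold M; nlinarith
  have h3 := Real.exp_pos (-(M * s))
  rw [le_div_iff₀ (by positivity)]
  nlinarith

theorem e_le' {s : ℝ} (hs : 1 ≤ s) : Real.exp (-(M * s)) ≤ 1 / 10 ^ 8 := by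
  have h1 := exp_neg_le (u := M * s)
  have h2 : (10:ℝ) ^ 8 ≤ 1 + M * s := by unfold M; nlinarith
  have h3 := Real.exp_pos (-(M * s))
  rw [le_div_iff₀ (by positivity)]
  nlinarith

theorem inv_ph_le {y : ℝ} (hy : 0 ≤ y) : 1 / ph M y ≤ 1 / 10 ^ 8 := by
  have h1 := ph_ge M_ge hy
  have h2 : (10:ℝ) ^ 8 ≤ ph M y := by
    have : M * 1 ≤ M * (1 + y + y ^ 2 + y ^ 3) :=
      mul_le_mul_of_nonneg_left (by nlinarith [sq_nonneg y, pow_nonneg hy 3]) M_pos.le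
    have hM : M = 10 ^ 8 := rfl
    linarith
  exact one_div_le_one_div_of_le (by positivity) h2

theorem M_le_ph {y : ℝ} (hy : 0 ≤ y) : 10 ^ 8 ≤ ph M y := by
  have h1 := ph_ge M_ge hy
  have : M * 1 ≤ M * (1 + y + y ^ 2 + y ^ 3) :=
    mul_le_mul_of_nonneg_left (by nlinarith [sq_nonneg y, pow_nonneg hy 3]) M_pos.le
  have hM : M = 10 ^ 8 := rfl
  linarith

theorem cube_le {y : ℝ} (hy : 0 ≤ y) : 10 ^ 7 * (1 + y) ^ 3 ≤ ph M y := by
  have h1 := ph_ge M_ge hy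
  have hM : M = 10 ^ 8 := rfl
  rw [hM] at h1 ⊢
  nlinarith [sq_nonneg y, pow_nonneg hy 3]

theorem nonneg_all (x : ℝ) : Nonneg (ph M (x - 1)) (ph M x) (x + 1 + 1 / ph M (x + 1)) x := by
  have hM : M = 10 ^ 8 := rfl
  rcases le_total 1 x with h1 | h1
  · -- x ≥ 1
    have a1 := inv_ph_le (y := x + 1) (by linarith)
    have a2 := ph_pos M_pos (x + 1)
    have a3 := cube_le (y := x - 1) (by linarith)
    have a4 := cube_le (y := x) (by linarith)
    apply case3 h1 (by positivity)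
    · have : (1:ℝ) / 10 ^ 8 ≤ 1 := by norm_num
      linarith
    · have : 1 + (x - 1) = x := by ring
      rw [this] at a3
      nlinarith [pow_pos (by linarith : (0:ℝ) < x) 3]
    · nlinarith [sq_nonneg x, pow_pos (by linarith : (0:ℝ) < x) 3]
  rcases le_total 0 x with h0 | h0
  · -- 0 ≤ x ≤ 1
    have a1 := inv_ph_le (y := x + 1) (by linarith)
    apply case1 h0 h1
    · linarith
    · have a2 := ph_neg_ge (M := M) (s := 1 - x) (by linarith)
      have : -(1 - x) = x - 1 := by ring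
      rw [this, hM] at a2
      have a3 : (1:ℝ) * 10 ^ 8 ≤ ((1 - x + 1 / 10 ^ 8) * ph (10 ^ 8) (x - 1)) * 10 ^ 8 := by
        have a4 : ((1 - x + 1 / 10 ^ 8) * ph (10 ^ 8) (x - 1)) * 10 ^ 8 =
          (1 + 10 ^ 8 * (1 - x)) * ph (10 ^ 8) (x - 1) := by ring
        rw [a4]; linarith
      rw [hM]
      exact le_of_mul_le_mul_right a3 (by positivity)
    · exact M_le_ph h0
  -- x ≤ 0
  obtain ⟨s, hs⟩ : ∃ s, s = -x := ⟨_, rfl⟩
  have hx : x = -s := by rw [hs]; ring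
  have hs0 : 0 ≤ s := by linarith
  subst hx
  have hRe : -s - 1 = -(1 + s) := by ring
  have hR := ph_neg_eq M (1 + s)
  rw [← hRe] at hR
  have hR' : 1 - 1 / 10 ^ 8 ≤ (1 + s) * ph M (-s - 1) := by
    have := e_le' (s := 1 + s) (by linarith)
    linarith
  rcases le_total s (1 / 100) with h2 | h2
  · have a1 := inv_ph_le (y := -s + 1) (by linarith)
    apply case2a hs0 h2
    · linarith
    · have b1 := ph_pos M_pos (-s - 1)
      by_contra hcon
      rw [not_le] at hcon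
      nlinarith
    · have a2 := ph_neg_ge (M := M) (s := s) hs0
      by_contra hcon
      rw [not_le] at hcon
      have b1 : 1 + M * s ≤ 1 + 10 ^ 6 := by rw [hM]; nlinarith
      have b2 : (1 + M * s) * ph M (-s) ≤ (1 + 10 ^ 6) * 90 := by
        apply mul_le_mul b1 hcon.le (ph_pos M_pos _).le (by positivity)
      rw [hM] at a2 b2
      norm_num at a2 b2
      linarith
  · have hspos : 0 < s := by linarith
    have hQ := ph_neg_eq M s
    have he0 := (Real.exp_pos (-(M * s))).le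
    rcases le_total s 1 with h3 | h3
    · have he := e_le h2
      have a1 := inv_ph_le (y := -s + 1) (by linarith)
      have a2 := ph_pos M_pos (-s + 1)
      apply case2 (c := 1 - 1 / 10 ^ 4) hspos he0 hQ (by norm_num)
      · have : 0 ≤ 1 / ph M (-s + 1) := by positivity
        linarith
      · have h4 : (1 + s) * (2 * Real.exp (-(M * s)) * s * (1521 / 400)) ≤ 1 / 10 ^ 4 - 1 / 10 ^ 8 := by
          have h5 : Real.exp (-(M * s)) * ((1 + s) * s) ≤ 1 / 10 ^ 6 * 2 := by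
            apply mul_le_mul he (by nlinarith) (by positivity) (by positivity)
          nlinarith
        linarith
      · linarith [show (2:ℝ) * (1 / 10 ^ 6) ≤ 1 / 10 ^ 4 by norm_num]
      · have hk := key s
        have hW : W s ^ 2 ≤ 5 / 4 := by
          unfold W; nlinarith
        have hA : (1 + s) * W s ^ 2 + s * (1521 / 400) ≤ 7 := by nlinarith
        have hA0 : 0 ≤ (1 + s) * W s ^ 2 + s * (1521 / 400) := by positivity
        have h4 : (-s + 1 + 1 / ph M (-s + 1)) * ((1 + s) * W s ^ 2 + s * (1521 / 400)) ≤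
            (1 - s + 1 / 10 ^ 8) * ((1 + s) * W s ^ 2 + s * (1521 / 400)) :=
          mul_le_mul_of_nonneg_right (by linarith) hA0
        nlinarith
    · have a2 := ph_pos M_pos (-s + 1)
      have hP := inv_ph M_pos (-s + 1)
      have hPe : -(-s + 1) = s - 1 := by ring
      rw [hPe] at hP
      have a3 := cube_le (y := s - 1) (by linarith)
      have : 1 + (s - 1) = s := by ring
      rw [this] at a3
      have hs3 : 0 < s ^ 3 := by positivity
      have he3 := exp_neg_le3 (u := M * s) (mul_nonneg M_pos.le hs0)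
      have he8 := e_le' h3
      rw [hP]
      apply case2 (c := 1 / 2) hspos he0 hQ (by norm_num)
      · have := ph_pos M_pos (s - 1)
        positivity
      · have h4 : (1 + s) * (2 * Real.exp (-(M * s)) * s * (1521 / 400)) ≤ 1 / 4 := by
          have h5 : (1 + s) * s ≤ 2 * s ^ 3 := by nlinarith [sq_nonneg (s - 1)]
          have h6 : Real.exp (-(M * s)) * ((1 + s) * s) ≤ Real.exp (-(M * s)) * (2 * s ^ 3) :=
            mul_le_mul_of_nonneg_left h5 he0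
          have h7 : s ^ 3 * Real.exp (-(M * s)) ≤ 1 / 100 := by
            have : (M * s) ^ 3 = 10 ^ 24 * s ^ 3 := by rw [hM]; ring
            rw [this] at he3
            nlinarith
          nlinarith
        linarith [show (1:ℝ) / 2 ≤ 1 - 1 / 10 ^ 8 - 1 / 4 by norm_num]
      · linarith [show (1:ℝ) / 2 ≤ 1 - 2 * (1 / 10 ^ 8) by norm_num]
      · have hW : W s ^ 2 ≤ 4 * s ^ 2 := by
          unfold W; nlinarith
        have hA : (1 + s) * W s ^ 2 + s * (1521 / 400) ≤ 12 * s ^ 3 := by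
          have h5 : (1 + s) * W s ^ 2 ≤ 2 * s * (4 * s ^ 2) := by
            apply mul_le_mul (by linarith) hW (sq_nonneg _) (by positivity)
          have h6 : s ≤ s ^ 3 := by nlinarith
          nlinarith
        rw [one_div, inv_mul_le_iff₀ (ph_pos M_pos _)]
        nlinarith

/-- the real form of the contraction property; `v i` are the scaled coefficients and `x = ν + 2` -/
theorem real_form (x v₁ v₂ v₃ : ℝ) :
    (x - 1) * v₁ ^ 2 + x * ((x - 1) * (39 / 20) * v₁ + v₂) ^ 2 +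
      (x + 1) * ((x - 1) * (3 + (x - 2) / 2 * (1521 / 400)) * v₁ + x * (39 / 20) * v₂ + v₃) ^ 2 ≤
    (x - 1) * Real.exp (M * (x - 1)) * v₁ ^ 2 + x * Real.exp (M * x) * v₂ ^ 2 +
      (x + 1) * Real.exp (M * (x + 1)) * v₃ ^ 2 := by
  have e1 := mul_ph M (x - 1)
  have e2 := mul_ph M x
  have e3 := mul_ph M (x + 1)
  have hN := nonneg_all x ((x - 1) * v₁) (x * v₂)
  have hT := ph_pos M_pos (x + 1)
  set T := ph M (x + 1) with hTdef
  set w : ℝ := 3 + (x - 2) / 2 * (1521 / 400) with hw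
  set l : ℝ := w * ((x - 1) * v₁) + 39 / 20 * (x * v₂) with hl
  have hsq : 0 ≤ T * ((x + 1) * v₃ - l / T) ^ 2 := by positivity
  have hsq' : T * ((x + 1) * v₃ - l / T) ^ 2 = T * ((x + 1) * v₃) ^ 2 - 2 * l * ((x + 1) * v₃) + 1 / T * l ^ 2 := by
    field_simp
    ring
  have f1 : Real.exp (M * (x - 1)) = (x - 1) * ph M (x - 1) + 1 := by linarith
  have f2 : Real.exp (M * x) = x * ph M x + 1 := by linarith
  have f3 : Real.exp (M * (x + 1)) = (x + 1) * T + 1 := by linarith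
  rw [f1, f2, f3]
  rw [hsq'] at hsq
  have h3 : (x - 1) * w * v₁ + x * (39 / 20) * v₂ = l := by rw [hl]; ring
  rw [h3]
  nlinarith

end Pool.Agent.TH642.DB
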