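import Mathlib
import Pool.Agent.TH642.DB.Contr

set_option autoImplicit false

namespace Pool.Agent.TH642.DB

/-- the coefficients -/
noncomputable def bb (n : ℕ) : ℂ :=
  if n = 1 then ((Real.exp (-(M / 2)) : ℝ) : ℂ)
  else if n = 2 then ((39 / 20 * Real.exp (-(M / 2)) : ℝ) : ℂ)
  else if n = 3 then ((3 * Real.exp (-(M / 2)) : ℝ) : ℂ)
  else 0

theorem bb1 : bb 1 = ((Real.exp (-(M / 2)) : ℝ) : ℂ) := by simp [bb]
theorem bb2 : bb 2 = ((39 / 20 * Real.exp (-(M / 2)) : ℝ) : ℂ) := by simp [bb]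
theorem bb3 : bb 3 = ((3 * Real.exp (-(M / 2)) : ℝ) : ℂ) := by simp [bb]

theorem bb1_re : (bb 1).re = Real.exp (-(M / 2)) := by rw [bb1, Complex.ofReal_re]

theorem bb1_ne : bb 1 ≠ 0 := by
  rw [bb1]
  exact_mod_cast (Real.exp_pos _).ne'

theorem q21 : bb 2 / bb 1 = 39 / 20 := by
  rw [div_eq_iff bb1_ne, bb1, bb2]
  push_cast
  ring

theorem q31 : bb 3 / bb 1 = 3 := by
  rw [div_eq_iff bb1_ne, bb1, bb3]
  push_cast
  ring

open Polynomial in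
/-- the polynomial -/
noncomputable def Pl : Polynomial ℂ := ∑ k ∈ Finset.Ico 1 3, Polynomial.C (bb (k + 1) / bb 1) * Polynomial.X ^ k

open Polynomial in
theorem Pl_eq : Pl = Polynomial.C (39 / 20 : ℂ) * Polynomial.X + Polynomial.C (3 : ℂ) * Polynomial.X ^ 2 := by
  unfold Pl
  have : Finset.Ico 1 3 = {1, 2} := by decide
  rw [this, Finset.sum_insert (by simp), Finset.sum_singleton]
  have h1 : bb (1 + 1) / bb 1 = 39 / 20 := q21
  have h2 : bb (2 + 1) / bb 1 = 3 := q31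
  rw [h1, h2, pow_one]

/-- the coefficient of the power -/
noncomputable def S (α : ℂ) (d : ℕ) : ℂ :=
  ∑ j ∈ Finset.range (d + 1), (∏ i ∈ Finset.range j, (α - (i : ℂ))) / ((j.factorial : ℕ) : ℂ) * (Pl ^ j).coeff d

theorem S_zero (α : ℂ) : S α 0 = 1 := by
  simp [S]

theorem S_one (α : ℂ) : S α 1 = α * (39 / 20) := by
  simp [S, Finset.sum_range_succ, Pl_eq, Polynomial.coeff_one, Polynomial.coeff_X_pow]

theorem Pl_sq_coeff : (Pl ^ 2).coeff 2 = 1521 / 400 := by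
  have h : Pl ^ 2 = Polynomial.C (1521 / 400 : ℂ) * Polynomial.X ^ 2 +
      Polynomial.C (117 / 10 : ℂ) * Polynomial.X ^ 3 + Polynomial.C (9 : ℂ) * Polynomial.X ^ 4 := by
    rw [Pl_eq]
    have e1 : (1521 / 400 : ℂ) = 39 / 20 * (39 / 20) := by norm_num
    have e2 : (117 / 10 : ℂ) = 39 / 20 * 3 + 39 / 20 * 3 := by norm_num
    have e3 : (9 : ℂ) = 3 * 3 := by norm_num
    rw [e1, e2, e3]
    simp only [Polynomial.C_mul, Polynomial.C_add]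
    ring
  rw [h]
  simp [Polynomial.coeff_X_pow]

theorem S_two (α : ℂ) : S α 2 = α * (3 + (α - 1) / 2 * (1521 / 400)) := by
  have h1 : Pl.coeff 2 = 3 := by
    rw [Pl_eq]; simp
  simp only [S, Finset.sum_range_succ, Finset.sum_range_zero, Finset.prod_range_succ, Finset.prod_range_zero,
    pow_zero, pow_one, h1, Pl_sq_coeff, Polynomial.coeff_one]
  norm_num [Nat.factorial]
  ring

theorem norm3 (r₁ r₂ r₃ : ℝ) (a₁ a₂ a₃ : ℂ) :
    ‖(r₁ : ℂ) * a₁ + r₂ * a₂ + r₃ * a₃‖ ^ 2 =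
      (r₁ * a₁.re + r₂ * a₂.re + r₃ * a₃.re) ^ 2 + (r₁ * a₁.im + r₂ * a₂.im + r₃ * a₃.im) ^ 2 := by
  rw [Complex.sq_norm, Complex.normSq_apply]
  simp
  ring

/-- the inequality for real vectors -/
theorem real_ineq (ν u₁ u₂ u₃ : ℝ) :
    (ν + 1) * (Real.exp (-(M / 2) * (ν + 1)) * u₁) ^ 2 +
      (ν + 2) * (Real.exp (-(M / 2) * (ν + 1)) * ((ν + 1) * (39 / 20)) * u₁ + Real.exp (-(M / 2) * (ν + 2)) * u₂) ^ 2 +
      (ν + 3) * (Real.exp (-(M / 2) * (ν + 1)) * ((ν + 1) * (3 + ν / 2 * (1521 / 400))) * u₁ +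
        Real.exp (-(M / 2) * (ν + 2)) * ((ν + 2) * (39 / 20)) * u₂ + Real.exp (-(M / 2) * (ν + 3)) * u₃) ^ 2 ≤
    (ν + 1) * u₁ ^ 2 + (ν + 2) * u₂ ^ 2 + (ν + 3) * u₃ ^ 2 := by
  have h := real_form (ν + 2) (Real.exp (-(M / 2) * (ν + 1)) * u₁) (Real.exp (-(M / 2) * (ν + 2)) * u₂)
    (Real.exp (-(M / 2) * (ν + 3)) * u₃)
  have e (y : ℝ) (u : ℝ) : Real.exp (M * y) * (Real.exp (-(M / 2) * y) * u) ^ 2 = u ^ 2 := by
    have : Real.exp (M * y) * (Real.exp (-(M / 2) * y)) ^ 2 = 1 := by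
      rw [← Real.exp_nat_mul, ← Real.exp_add]
      have : M * y + ((2 : ℕ) : ℝ) * (-(M / 2) * y) = 0 := by push_cast; ring
      rw [this, Real.exp_zero]
    rw [mul_pow]
    linear_combination u ^ 2 * this
  have h1 : ν + 2 - 1 = ν + 1 := by ring
  have h2 : ν + 2 + 1 = ν + 3 := by ring
  have h3 : ν + 2 - 2 = ν := by ring
  rw [h1, h2, h3] at h
  have e1 := e (ν + 1) u₁
  have e2 := e (ν + 2) u₂
  have e3 := e (ν + 3) u₃
  have r1 : (ν + 1) * Real.exp (M * (ν + 1)) * (Real.exp (-(M / 2) * (ν + 1)) * u₁) ^ 2 = (ν + 1) * u₁ ^ 2 := by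
    rw [mul_assoc, e1]
  have r2 : (ν + 2) * Real.exp (M * (ν + 2)) * (Real.exp (-(M / 2) * (ν + 2)) * u₂) ^ 2 = (ν + 2) * u₂ ^ 2 := by
    rw [mul_assoc, e2]
  have r3 : (ν + 3) * Real.exp (M * (ν + 3)) * (Real.exp (-(M / 2) * (ν + 3)) * u₃) ^ 2 = (ν + 3) * u₃ ^ 2 := by
    rw [mul_assoc, e3]
  rw [r1, r2, r3] at h
  refine le_trans (le_of_eq ?_) h
  ring

theorem contraction (ν : ℝ) (a : ℕ → ℂ) :
    ∑ m ∈ Finset.Icc (1:ℕ) 3, (ν + (m : ℝ)) *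
          ‖∑ n ∈ Finset.Icc (1:ℕ) m, a n * ((((bb 1).re ^ (ν + (n : ℝ)) : ℝ)) : ℂ) *
            ∑ j ∈ Finset.range (m - n + 1),
              (∏ i ∈ Finset.range j, ((((ν + (n : ℝ)) : ℝ) : ℂ) - (i : ℂ))) / ((j.factorial : ℕ) : ℂ) *
              ((∑ k ∈ Finset.Ico 1 3, Polynomial.C (bb (k + 1) / bb 1) * Polynomial.X ^ k) ^ j).coeff (m - n)‖ ^ 2
        ≤ ∑ n ∈ Finset.Icc (1:ℕ) 3, (ν + (n : ℝ)) * ‖a n‖ ^ 2 := by
  have hI1 : Finset.Icc (1:ℕ) 1 = {1} := by decide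
  have hI2 : Finset.Icc (1:ℕ) 2 = {1, 2} := by decide
  have hI3 : Finset.Icc (1:ℕ) 3 = {1, 2, 3} := by decide
  change ∑ m ∈ Finset.Icc (1:ℕ) 3, (ν + (m : ℝ)) *
          ‖∑ n ∈ Finset.Icc (1:ℕ) m, a n * ((((bb 1).re ^ (ν + (n : ℝ)) : ℝ)) : ℂ) *
            S (((ν + (n : ℝ)) : ℝ) : ℂ) (m - n)‖ ^ 2 ≤ _
  rw [hI3, Finset.sum_insert (by simp), Finset.sum_insert (by simp), Finset.sum_singleton,
    Finset.sum_insert (by simp), Finset.sum_insert (by simp), Finset.sum_singleton,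
    hI1, hI2, hI3, Finset.sum_singleton,
    Finset.sum_insert (by simp), Finset.sum_singleton,
    Finset.sum_insert (by simp), Finset.sum_insert (by simp), Finset.sum_singleton]
  simp only [Nat.sub_self, show 2 - 1 = 1 from rfl, show 3 - 1 = 2 from rfl,
    S_zero, S_one, S_two, bb1_re, ← Real.exp_mul]
  have hn : ∀ (x y z : ℂ), x = z → y = z → x = y := by
    intro x y z h1 h2
    rw [h1, h2]
  have n1 : ‖a 1 * ((Real.exp (-(M / 2) * (ν + ((1:ℕ) : ℝ))) : ℝ) : ℂ) * 1‖ ^ 2 =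
      (Real.exp (-(M / 2) * (ν + 1)) * (a 1).re) ^ 2 + (Real.exp (-(M / 2) * (ν + 1)) * (a 1).im) ^ 2 := by
    have := norm3 (Real.exp (-(M / 2) * (ν + 1))) 0 0 (a 1) 0 0
    simp only [Complex.ofReal_zero, mul_zero, add_zero, zero_mul] at this
    rw [← this]
    congr 2
    push_cast
    ring
  have n2 : ‖a 1 * ((Real.exp (-(M / 2) * (ν + ((1:ℕ) : ℝ))) : ℝ) : ℂ) * (((ν + ((1:ℕ) : ℝ) : ℝ) : ℂ) * (39 / 20)) +
      a 2 * ((Real.exp (-(M / 2) * (ν + ((2:ℕ) : ℝ))) : ℝ) : ℂ) * 1‖ ^ 2 =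
      (Real.exp (-(M / 2) * (ν + 1)) * ((ν + 1) * (39 / 20)) * (a 1).re + Real.exp (-(M / 2) * (ν + 2)) * (a 2).re) ^ 2
      + (Real.exp (-(M / 2) * (ν + 1)) * ((ν + 1) * (39 / 20)) * (a 1).im + Real.exp (-(M / 2) * (ν + 2)) * (a 2).im) ^ 2 := by
    have := norm3 (Real.exp (-(M / 2) * (ν + 1)) * ((ν + 1) * (39 / 20))) (Real.exp (-(M / 2) * (ν + 2))) 0 (a 1) (a 2) 0
    simp only [Complex.ofReal_zero, mul_zero, add_zero, zero_mul] at this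
    rw [← this]
    congr 2
    push_cast
    ring
  have n3 : ‖a 1 * ((Real.exp (-(M / 2) * (ν + ((1:ℕ) : ℝ))) : ℝ) : ℂ) *
        (((ν + ((1:ℕ) : ℝ) : ℝ) : ℂ) * (3 + (((ν + ((1:ℕ) : ℝ) : ℝ) : ℂ) - 1) / 2 * (1521 / 400))) +
      (a 2 * ((Real.exp (-(M / 2) * (ν + ((2:ℕ) : ℝ))) : ℝ) : ℂ) * (((ν + ((2:ℕ) : ℝ) : ℝ) : ℂ) * (39 / 20)) +
      a 3 * ((Real.exp (-(M / 2) * (ν + ((3:ℕ) : ℝ))) : ℝ) : ℂ) * 1)‖ ^ 2 =
      (Real.exp (-(M / 2) * (ν + 1)) * ((ν + 1) * (3 + ν / 2 * (1521 / 400))) * (a 1).re +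
        Real.exp (-(M / 2) * (ν + 2)) * ((ν + 2) * (39 / 20)) * (a 2).re + Real.exp (-(M / 2) * (ν + 3)) * (a 3).re) ^ 2
      + (Real.exp (-(M / 2) * (ν + 1)) * ((ν + 1) * (3 + ν / 2 * (1521 / 400))) * (a 1).im +
        Real.exp (-(M / 2) * (ν + 2)) * ((ν + 2) * (39 / 20)) * (a 2).im + Real.exp (-(M / 2) * (ν + 3)) * (a 3).im) ^ 2 := by
    have := norm3 (Real.exp (-(M / 2) * (ν + 1)) * ((ν + 1) * (3 + ν / 2 * (1521 / 400))))
      (Real.exp (-(M / 2) * (ν + 2)) * ((ν + 2) * (39 / 20))) (Real.exp (-(M / 2) * (ν + 3))) (a 1) (a 2) (a 3)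
    rw [← this]
    congr 2
    push_cast
    ring
  rw [n1, n2, n3]
  have hre := real_ineq ν (a 1).re (a 2).re (a 3).re
  have him := real_ineq ν (a 1).im (a 2).im (a 3).im
  rw [Complex.sq_norm, Complex.sq_norm, Complex.sq_norm, Complex.normSq_apply, Complex.normSq_apply,
    Complex.normSq_apply]
  push_cast
  nlinarith [hre, him]

end Pool.Agent.TH642.DB
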